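import Mathlib

set_option autoImplicit false

namespace Pool.Agent.Results.MP_c843e9_co.Bound

open SimpleGraph

/-- the number of vertices at even distance from `v` (including `v`) -/
noncomputable def dEven {V : Type} (G : SimpleGraph V) (v : V) : ℕ := {u | Even (G.dist u v)}.ncard

/-- the largest independence number of an open neighbourhood -/
noncomputable def Lam {V : Type} (G : SimpleGraph V) : ℕ :=
  ⨆ v, (G.induce (G.neighborSet v)).indepNum

lemma loc {V : Type} [Finite V] (G : SimpleGraph V) (u : V) (S : Finset V) (h1 : ∀ x ∈ S, G.Adj u x)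
    (h2 : ∀ x ∈ S, ∀ y ∈ S, ¬ G.Adj x y) : S.card ≤ Lam G := by
  classical
  refine le_trans ?_ (le_ciSup (f := fun v => (G.induce (G.neighborSet v)).indepNum)
    (Set.finite_range _).bddAbove u)
  have := IsIndepSet.card_le_indepNum (G := G.induce (G.neighborSet u))
    (t := S.subtype (· ∈ G.neighborSet u)) fun x hx y hy _ =>
      h2 x (by simpa using hx) y (by simpa using hy)
  rwa [Finset.card_subtype, Finset.filter_true_of_mem (p := (· ∈ G.neighborSet u)) h1] at this

theorem result {V : Type} [Finite V] [Nontrivial V] (G : SimpleGraph V) (hG : G.Connected) :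
    G.indepNum ≤ 1 + (⨅ v, dEven G v) * (Lam G - 1) := by
  classical
  have := Fintype.ofFinite V
  obtain ⟨v, hv⟩ := exists_eq_ciInf_of_finite (f := dEven G)
  rw [← hv]
  obtain ⟨I, hI, hc⟩ := G.exists_isNIndepSet_indepNum
  have ind : ∀ x ∈ I, ∀ y ∈ I, ¬ G.Adj x y := fun x hx y hy a => hI hx hy a.ne a
  have step : ∀ x, ∃ y, x ≠ v → G.Adj x y ∧ G.dist y v + 1 = G.dist x v := fun x => by
    obtain ⟨p, hp⟩ := hG.exists_walk_length_eq_dist x v
    cases p with
    | nil => exact ⟨v, fun h => absurd rfl h⟩
    | @cons _ y _ a q =>
      refine ⟨y, fun _ => ⟨a, ?_⟩⟩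
      have h1 := G.dist_le q
      have h2 := hG.dist_triangle (u := x) (v := y) (w := v)
      rw [dist_eq_one_iff_adj.2 a] at h2
      rw [Walk.length_cons] at hp
      omega
  choose par hp using step
  have lip : ∀ x y, G.Adj x y → G.dist y v ≤ G.dist x v + 1 := fun x y a => by
    have h2 := hG.dist_triangle (u := y) (v := x) (w := v)
    rw [dist_eq_one_iff_adj.2 a.symm] at h2
    omega
  have ne : ∀ x, ¬ Even (G.dist x v) → x ≠ v := fun x h e => h (by simp [e])
  let φ : V → V := fun x => if Even (G.dist x v) then x else par x
  let E : Finset V := Finset.univ.filter fun u => Even (G.dist u v)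
  have hE : dEven G v = E.card := by
    rw [dEven, ← Set.ncard_coe_finset]; simp [E]
  have l1 : 1 ≤ Lam G := by
    obtain ⟨w, hw⟩ := exists_ne v
    simpa using loc G w {par w} (by simpa using (hp w hw).1) (by simp)
  have fib : ∀ u ∈ E, (I.filter fun x => φ x = u).card ≤ (Lam G - 1) + if u = v then 1 else 0 := by
    intro u hu
    have ch : ∀ x, φ x = u → x ≠ u → G.Adj u x ∧ G.dist u v + 1 = G.dist x v := fun x h n => by
      simp only [φ] at h
      split_ifs at h with e
      · exact absurd h n
      · exact h ▸ ⟨(hp x (ne x e)).1.symm, (hp x (ne x e)).2⟩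
    by_cases hu' : u ∈ I
    · have a : (I.filter fun x => φ x = u).card ≤ 1 := Finset.card_le_one.2 fun x hx y hy => by
        have k : ∀ z ∈ I.filter fun x => φ x = u, z = u := fun z hz => by
          by_contra n
          exact ind u hu' z (Finset.mem_filter.1 hz).1 (ch z (Finset.mem_filter.1 hz).2 n).1
        rw [k x hx, k y hy]
      split_ifs with e
      · omega
      · have e1 := hp u e
        have ev : Even (G.dist u v) := by simpa [E] using hu
        have n2 : par u ≠ v := ne _ (by rw [← e1.2, Nat.even_add_one] at ev; exact ev)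
        have e2 := hp _ n2
        have na : ¬ G.Adj (par (par u)) u := fun a => by have := lip _ _ a; omega
        have nn : u ≠ par (par u) := fun c => by rw [← c] at e2; omega
        have na' : ¬ G.Adj u (par (par u)) := fun c => na c.symm
        have := loc G (par u) {u, par (par u)} (by simp [e1.1.symm, e2.1]) (by simp [na, na'])
        rw [Finset.card_pair nn] at this
        omega
    · have c : ∀ x ∈ I.filter fun x => φ x = u, G.Adj u x ∧ G.dist u v + 1 = G.dist x v :=
        fun x hx => ch x (Finset.mem_filter.1 hx).2 fun e => hu' (e ▸ (Finset.mem_filter.1 hx).1)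
      have i2 : ∀ x ∈ I.filter fun x => φ x = u, ∀ y ∈ I.filter fun x => φ x = u, ¬ G.Adj x y :=
        fun x hx y hy => ind x (Finset.mem_filter.1 hx).1 y (Finset.mem_filter.1 hy).1
      split_ifs with e
      · have := loc G u _ (fun x hx => (c x hx).1) i2
        omega
      · have e1 := hp u e
        have na : ∀ x ∈ I.filter fun x => φ x = u, ¬ G.Adj (par u) x := fun x hx a => by
          have := lip _ _ a; have := (c x hx).2; omega
        have := loc G u (insert (par u) (I.filter fun x => φ x = u))
          (fun x hx => (Finset.mem_insert.1 hx).elim (fun e => e ▸ e1.1) fun h => (c x h).1)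
          (fun x hx y hy => by
            rcases Finset.mem_insert.1 hx with rfl | hx <;> rcases Finset.mem_insert.1 hy with rfl | hy
            · exact G.irrefl
            · exact na y hy
            · exact fun a => na x hx a.symm
            · exact i2 x hx y hy)
        rw [Finset.card_insert_of_notMem fun h => by have := (c _ h).2; omega] at this
        omega
  have tot := Finset.card_eq_sum_card_fiberwise (s := I) (t := E) (f := φ) fun x _ => by
    simp only [E, φ, Finset.coe_filter, Finset.mem_univ, true_and, Set.mem_ofPred_eq]
    split_ifs with e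
    · exact e
    · have := (hp x (ne x e)).2
      rw [← this, Nat.even_add_one, not_not] at e
      exact e
  have := Finset.sum_le_sum fib
  rw [← tot, hc, Finset.sum_add_distrib, Finset.sum_const, Finset.sum_ite_eq' E v, smul_eq_mul] at this
  rw [hE]
  split_ifs at this <;> omega

end Pool.Agent.Results.MP_c843e9_co.Bound
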